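import Pool.Agent.H55.KSS.Main

/-!
# The exact strength of Q1: matrices over periodic rings and Koethe's conjecture

(1) The companion matrix: pi-UU for `2n × 2n` matrices gives periodicity of `n × n` matrices.
(2) Equivalent forms of Q1, among them the algebraicity of matrices over algebraic algebras, the case of
primitive rings, and Koethe's conjecture together with the case of finitely generated prime rings with
zero Jacobson radical.
(3) Q1 for the periodic rings that are commutative modulo a nil ideal is Koethe's conjecture in prime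
characteristic.
-/

set_option autoImplicit false

universe u

namespace Pool.Agent.Results.MP_b55e4c_al.KoetheStrength

open Pool.KSS

theorem result :
    (∀ (R : Type u) [Ring R] (c : ℕ), 0 < c → Kills c R → ∀ n : ℕ, MatPiUU R (2 * n) → MatPer R n) ∧
    List.TFAE [
      Q1.{u},
      ∀ (R : Type u) [Ring R], Per R → MatPiUU R 4,
      ∀ (R : Type u) [Ring R], Per R → ∀ n : ℕ, MatPer R n,
      ∀ (R : Type u) [Ring R], Per R → ∀ n : ℕ, MatTorsion R n,
      AlgMat.{u},
      ∀ (p : ℕ) (R : Type u) [Ring R], p.Prime → Kills p R → PrimitiveR R → Per R →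
        ∀ n : ℕ, MatPiUU R n,
      (∀ p : ℕ, p.Prime → Koethe.{u} p) ∧
        ∀ (p : ℕ) (R : Type u) [Ring R], p.Prime → Kills p R → FinGen R → PrimeR R →
          Semiprimitive R → Per R → ∀ n : ℕ, MatPiUU R n] ∧
    List.TFAE [
      ∀ p : ℕ, p.Prime → Koethe.{u} p,
      ∀ (R : Type u) [Ring R], Lifts R,
      ∀ (R : Type u) [Ring R], Per R → NilComm R → ∀ n : ℕ, MatPiUU R n,
      ∀ p : ℕ, p.Prime → ∀ (R : Type u) [Ring R], NilPrime p R → MatPiUU R 2] :=
  Pool.KSS.main.{u}

end Pool.Agent.Results.MP_b55e4c_al.KoetheStrength
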